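import Mathlib
import Pool.Agent.Lib.MP_4a1067_nt.Trace

namespace Pool.Agent.Results.MP_4a1067_nt.SqrtMany

open Pool.Agent.Lib.MP_4a1067_nt

/-- For every odd prime `p` the number of isomorphism classes of functional graphs of the maps
`x ↦ x ^ 2 + a` on `ZMod p` exceeds `√p - 1`. -/
theorem result : ∀ p : ℕ, p.Prime → p ≠ 2 →
    Real.sqrt p - 1 < (Nat.card (Quot fun a b : ZMod p =>
        ∃ σ : ZMod p ≃ ZMod p, ∀ x : ZMod p, σ (x ^ 2 + a) = (σ x) ^ 2 + b) : ℝ) := by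
  classical
  intro p hp hp2
  have : Fact p.Prime := ⟨hp⟩
  have hchar : ringChar (ZMod p) ≠ 2 := by rw [ZMod.ringChar_zmod_n]; exact hp2
  have h2 : (2 : ZMod p) ≠ 0 := Ring.two_ne_zero hchar
  set r : ZMod p → ZMod p → Prop := fun a b =>
    ∃ σ : ZMod p ≃ ZMod p, ∀ x : ZMod p, σ (x ^ 2 + a) = (σ x) ^ 2 + b with hr
  let T : Quot r → ℤ := Quot.lift tr (fun a b ⟨σ, hσ⟩ => conj_tr h2 σ hσ)
  set s : ℝ := Real.sqrt p with hs
  have hs0 : 0 < s := Real.sqrt_pos.mpr (by exact_mod_cast hp.pos)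
  have hss : s * s = p := Real.mul_self_sqrt (Nat.cast_nonneg _)
  set A : ℝ := (p + 1 - 2 * s) / 4 with hA
  set S : Finset ℤ := Finset.Ioo ⌊A⌋ ⌈A + s⌉ with hS
  have hmem : ∀ k ∈ S, ∃ q : Quot r, T q = p - 4 * k := by
    intro k hk
    obtain ⟨k1, k2⟩ := Finset.mem_Ioo.mp hk
    rw [Int.floor_lt] at k1
    rw [Int.lt_ceil] at k2
    have ht : ((p : ℤ) + 1 - 4 * k) ^ 2 < 4 * p := by
      have : ((p : ℝ) + 1 - 4 * k) ^ 2 < 4 * p := by
        have a1 : (p : ℝ) + 1 - 4 * k < 2 * s := by linarith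
        have a2 : -(2 * s) < (p : ℝ) + 1 - 4 * k := by linarith
        nlinarith
      exact_mod_cast this
    obtain ⟨l, l0, l1, hl⟩ := deuring p hp2 _ ht ⟨k, by ring⟩
    refine ⟨Quot.mk r (-2 / l), ?_⟩
    show tr (-2 / l) = _
    rw [tr_eq hchar h2 l0 l1, hl]
    ring
  choose! f hf using hmem
  have hle : S.card ≤ Nat.card (Quot r) := by
    have : Fintype (Quot r) := Fintype.ofFinite _
    rw [Nat.card_eq_fintype_card, ← Finset.card_univ]
    refine Finset.card_le_card_of_injOn f (fun _ _ => Finset.mem_univ _) fun k hk j hj h => ?_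
    have := (hf k hk).symm.trans (h ▸ hf j hj)
    omega
  have hcard : s - 1 < (S.card : ℝ) := by
    have e : ((S.card : ℤ) : ℝ) = ((⌈A + s⌉ - ⌊A⌋ - 1 : ℤ) : ℝ) ∨ ⌈A + s⌉ - ⌊A⌋ - 1 < 0 := by
      rw [hS, Int.card_Ioo]
      by_cases h : 0 ≤ ⌈A + s⌉ - ⌊A⌋ - 1
      · left; rw [Int.toNat_of_nonneg h]
      · right; omega
    have hirr : (⌊A⌋ : ℝ) ≠ A := by
      intro h
      have h1 : Irrational s := hp.irrational_sqrt
      have h3 : s = ((p + 1 - 4 * ⌊A⌋ : ℤ) : ℝ) / ((2 : ℤ) : ℝ) := by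
        push_cast; rw [h, hA]; ring
      exact (irrational_iff_ne_rational s).mp h1 _ _ (by norm_num) h3
    have a1 := lt_of_le_of_ne (Int.floor_le A) hirr
    have a2 := Int.le_ceil (A + s)
    rcases e with e | e
    · push_cast at e
      linarith
    · have : ((⌈A + s⌉ - ⌊A⌋ : ℤ) : ℝ) ≤ 0 := by exact_mod_cast (by omega)
      push_cast at this
      linarith
  exact hcard.trans_le (by exact_mod_cast hle)

end Pool.Agent.Results.MP_4a1067_nt.SqrtMany
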